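import Mathlib

/-! # Sets of positive numbers which do not lie in a lattice -/

set_option autoImplicit false

namespace Pool.Agent.NH10

lemma dense_of_not_lattice {S : Set ℝ} (hS : ∀ h ∈ S, 0 < h)
    (hn : ¬ ∃ c : ℝ, 0 < c ∧ ∀ h ∈ S, ∃ n : ℕ, h = n * c) :
    Dense ((AddSubgroup.closure S : AddSubgroup ℝ) : Set ℝ) := by
  rcases AddSubgroup.dense_or_cyclic (AddSubgroup.closure S) with h | ⟨a, ha⟩
  · exact h
  · exfalso
    apply hn
    have hmem : ∀ h ∈ S, ∃ n : ℤ, n • a = h := by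
      intro h hh
      have h1 : h ∈ AddSubgroup.closure S := AddSubgroup.subset_closure hh
      rw [ha, AddSubgroup.mem_closure_singleton] at h1
      exact h1
    by_cases ha0 : a = 0
    · refine ⟨1, one_pos, fun h hh => ?_⟩
      obtain ⟨n, hn⟩ := hmem h hh
      rw [ha0, smul_zero] at hn
      exact absurd (hS h hh) (by rw [← hn]; exact lt_irrefl _)
    · refine ⟨|a|, abs_pos.2 ha0, fun h hh => ?_⟩
      obtain ⟨n, hn⟩ := hmem h hh
      refine ⟨n.natAbs, ?_⟩
      have h1 : |h| = h := abs_of_pos (hS h hh)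
      rw [← h1, ← hn, zsmul_eq_mul, abs_mul, Nat.cast_natAbs, Int.cast_abs]

end Pool.Agent.NH10
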